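import Pool.Agent.H45.Lib.Ts3997aac3.Q79.PL.Core
import Pool.Agent.H45.Lib.S8.H38R2.CG2.LM
import Pool.Agent.H45.Lib.S8.H38R2.CG2.BH
import Pool.Agent.H45.Lib.S8.H38R2.CG2.BHc
import Pool.Agent.H45.Lib.S8.H38R2.CG2.BHa
import Pool.Agent.H45.Lib.S8.H38R2.CG2.V0
import Pool.Agent.H45.Lib.S8.H38R2.CG2.V1
import Pool.Agent.H45.Lib.S8.H38R2.CG2.WT
import Pool.Agent.H45.Lib.S8.H38R2.CG2.BF
import Pool.Agent.H45.Lib.S8.H38R2.CG2.HB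
import Pool.Agent.H45.Lib.S8.H38R2.CG2.HD
import Pool.Agent.H45.Lib.S8.H38R2.CG2.CH
import Pool.Agent.H45.Lib.S8.H38R2.CG2.MP
import Pool.Agent.H45.Lib.S8.H38R2.CG2.TRIV
import Pool.Agent.H45.Lib.S8.H38R2.CG.NF
import Pool.Agent.H45.Lib.S8.H38R2.CG.N0
import Pool.Agent.H45.Lib.S8.H38R2.CG.N0d
import Pool.Agent.H45.Lib.S8.H38R2.CG.N0e
import Pool.Agent.H45.Lib.S8.H38R2.CG.N1
import Pool.Agent.H45.Lib.S8.H38R2.CG.N2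
import Pool.Agent.H45.Lib.S8.H38R2.CG.N3
import Pool.Agent.H45.Lib.S8.H38R2.CG.N3a
import Pool.Agent.H45.Lib.S8.H38R2.CG.N3b
import Pool.Agent.H45.Lib.S8.H38R2.CG.N4
import Pool.Agent.H45.Lib.S8.H38R2.CG.N4a
import Pool.Agent.H45.Lib.S8.H38R2.CG.N4b
import Pool.Agent.H45.Lib.S8.H38R2.CG.N5
import Pool.Agent.H45.Lib.S8.H38R2.CG.N5a
import Pool.Agent.H45.Lib.S8.H38R2.CG.N5b
import Pool.Agent.H45.Lib.S8.H38R2.CG.N6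
import Pool.Agent.H45.Lib.S8.H38R2.CG.SPL
import Pool.Agent.H45.Lib.S8.H38R2.CG.KR
import Pool.Agent.H45.Lib.S8.H38R2.CG.KF
import Pool.Agent.H45.Lib.S8.H38R2.CG.PV

set_option autoImplicit false

/-! Jobs LAV, LNN and LAP of the project PL. -/

namespace Pool.Agent.Q79.PL

open Pool.Agent.H38R2.CG Pool.Agent.H38R2.CG2 Pool.Agent.Q276.PL

theorem p_PV : P_PV := T_PV
theorem p_N3a : P_N3a := T_N3a T_KR p_PV
theorem p_N3 : P_N3 := T_N3 (T_N2 (T_SPL T_N0)) (T_N3b T_KR p_PV p_N3a)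
theorem p_N4 : P_N4 := T_N4 T_N4a T_N4b
theorem p_N5 : P_N5 := T_N5 p_N3 p_N4 (T_N5a T_KF) (T_N5b T_KF p_N4)
theorem p_NF : P_NF := T_NF T_N0 (T_N0e T_N0d) (T_N1 (T_SPL T_N0)) p_N3 p_N5 (T_N6 T_KF)
theorem p_LM : P2_LM := T2_LM p_N3a T2_WT (T2_V0 T2_WT) (T2_V1 p_PV T2_WT)
theorem p_BH : P2_BH := T2_BH T2_BF T2_HB (T2_HD T2_BF T2_HB) T2_CH T2_BHa
  (T2_BHc T2_BF T2_HB T2_CH T2_MP T2_BHa)

theorem lnn : StmtLNN := fun D hD => (p_NF D hD).1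

theorem lav : StmtLAV := lav_core p_LM T2_TRIV lnn

theorem lap : StmtLAP := lap_core p_LM p_BH lnn

end Pool.Agent.Q79.PL
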