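import Pool.Agent.H45.Lib.Ts3997aac3.Q276.PL.Stm2
import Pool.Agent.H45.Lib.S8.H38R2.CG2.AP

set_option autoImplicit false

/-! First moments of `L(1, chi_D)` over dyadic blocks (jobs LAV and LAP of the project PL),
with the analytic inputs as hypotheses. -/

namespace Pool.Agent.Q79.PL

open Finset Filter Pool.Agent.H38R2.CG Pool.Agent.H38R2.CG2 Pool.Agent.Q276.PL
open scoped Classical

/-- a sum over a block, class by class -/
lemma block (hNF : ∀ D : ℕ, IsFund D → 0 ≤ Lone D) (X : ℕ) (_hX : 1 ≤ X) (w : ℕ → ℝ)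
    (hw : ∀ D : ℕ, 1 ≤ D → 0 ≤ w D) (S : Finset ℕ) (hS : S ⊆ (Finset.Ioc X (2 * X)).filter IsFund)
    (hw1 : ∀ D ∈ S, w D = 1) (B : ℝ) (hB : ∀ r : ℕ, FundRes 2 r →
      ∑ D ∈ FD 2 r X 1, w D * Lone D ≤ B) (hB0 : 0 ≤ B) :
    ∑ D ∈ S, Lone D ≤ Qz 2 * B := by
  have hfl : ⌊(1 + (1 : ℝ)) * X⌋₊ = 2 * X := by
    have : (1 + (1 : ℝ)) * X = ((2 * X : ℕ) : ℝ) := by push_cast; ring
    rw [this, Nat.floor_natCast]
  have h1 : ∑ D ∈ S, Lone D = ∑ r ∈ Finset.range (Qz 2), ∑ D ∈ S.filter (fun D => D % Qz 2 = r),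
      Lone D := by
    symm
    apply Finset.sum_fiberwise_of_maps_to
    intro D _
    exact Finset.mem_range.2 (Nat.mod_lt _ (AS1h.Qz_pos 2))
  rw [h1]
  have h2 : ∀ r ∈ Finset.range (Qz 2), ∑ D ∈ S.filter (fun D => D % Qz 2 = r), Lone D ≤ B := by
    intro r _
    by_cases hr : FundRes 2 r
    · refine le_trans ?_ (hB r hr)
      have hsub : S.filter (fun D => D % Qz 2 = r) ⊆ FD 2 r X 1 := by
        intro D hD
        rw [Finset.mem_filter] at hD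
        have h3 := hS hD.1
        rw [Finset.mem_filter] at h3
        unfold FD DD
        rw [hfl, Finset.mem_filter, Finset.mem_filter]
        exact ⟨⟨h3.1, hD.2⟩, h3.2⟩
      calc ∑ D ∈ S.filter (fun D => D % Qz 2 = r), Lone D =
            ∑ D ∈ S.filter (fun D => D % Qz 2 = r), w D * Lone D := by
            refine Finset.sum_congr rfl fun D hD => ?_
            rw [hw1 D (Finset.mem_filter.1 hD).1, one_mul]
        _ ≤ _ := by
            refine Finset.sum_le_sum_of_subset_of_nonneg hsub fun D hD _ => ?_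
            unfold FD DD at hD
            rw [Finset.mem_filter, Finset.mem_filter, Finset.mem_Ioc] at hD
            exact mul_nonneg (hw D (by omega)) (hNF D hD.2)
    · have hemp : S.filter (fun D => D % Qz 2 = r) = ∅ := by
        rw [Finset.filter_eq_empty_iff]
        intro D hD hDr
        apply hr
        rw [← hDr]
        exact AS1h.fundRes 2 D (Finset.mem_filter.1 (hS hD)).2
      rw [hemp, Finset.sum_empty]
      exact hB0
  calc _ ≤ ∑ _r ∈ Finset.range (Qz 2), B := Finset.sum_le_sum h2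
    _ = Qz 2 * B := by rw [Finset.sum_const, Finset.card_range, nsmul_eq_mul]

/-- the Euler factor at two -/
lemma pi_ge (r : ℕ) : (1 : ℝ) / 2 ≤ PiR 2 r := by
  unfold PiR
  have h1 : (Finset.Icc 2 2).filter Nat.Prime = {2} := by
    ext k
    simp only [Finset.Icc_self, Finset.mem_filter, Finset.mem_singleton]
    constructor
    · intro h; exact h.1
    · intro h; exact ⟨h, h ▸ Nat.prime_two⟩
  rw [h1, Finset.prod_singleton]
  have h2 : (chi r 2 : ℝ) ≤ 1 := by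
    have h3 : padicValNat 2 2 = 1 := padicValNat_self
    have h4 : chi r 2 = chi2 r := by
      unfold chi
      rw [h3, pow_one, pow_one]
      simp
    rw [h4]
    unfold chi2
    split_ifs <;> norm_num
  have h5 : (chi r 2 : ℝ) / (2 : ℕ) ≤ 1 / 2 := by
    push_cast
    linarith
  linarith

/-- the bound for one class -/
lemma class_bd (hLM : P2_LM) (r : ℕ) (hr : FundRes 2 r) (C0 : ℕ) (hC0 : 1 ≤ C0) :
    ∃ X0 : ℕ, ∀ X ≥ X0, ∀ ρ : ℕ → ℝ, SWt 2 X (PA 3 X) (cc 3) C0 ρ → 0 ≤ GG X ρ →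
      ∑ D ∈ FD 2 r X 1, wt ρ D * Lone D ≤ 12 * (X / Qz 2 * GG X ρ) := by
  obtain ⟨X0, hX0⟩ := hLM 3 (by norm_num) 2 r le_rfl hr 1 one_pos le_rfl C0 hC0 1 one_pos
  refine ⟨X0, fun X hX ρ hρ hG => ?_⟩
  refine (hX0 X hX ρ hρ).trans ?_
  have hpi := pi_ge r
  have hpos : 0 < PiR 2 r := by linarith
  have hQ : (0 : ℝ) < Qz 2 := by exact_mod_cast AS1h.Qz_pos 2
  have hW : 0 ≤ (X : ℝ) / Qz 2 * GG X ρ := by positivity
  rw [div_le_iff₀ hpos]
  unfold WW
  have e : (1 + (1 : ℝ)) * (1 + 4 / ((2 : ℕ) : ℝ)) * (1 * X / Qz 2 * GG X ρ) =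
      6 * (X / Qz 2 * GG X ρ) := by
    push_cast
    ring
  rw [e]
  nlinarith

/-- all classes -/
lemma class_all (hLM : P2_LM) (C0 : ℕ) (hC0 : 1 ≤ C0) :
    ∃ X0 : ℕ, ∀ X ≥ X0, ∀ ρ : ℕ → ℝ, SWt 2 X (PA 3 X) (cc 3) C0 ρ → 0 ≤ GG X ρ →
      ∀ r : ℕ, FundRes 2 r → ∑ D ∈ FD 2 r X 1, wt ρ D * Lone D ≤ 12 * (X / Qz 2 * GG X ρ) := by
  have h : ∀ r : ℕ, ∃ X0 : ℕ, ∀ X ≥ X0, ∀ ρ : ℕ → ℝ, SWt 2 X (PA 3 X) (cc 3) C0 ρ → 0 ≤ GG X ρ →
      FundRes 2 r → ∑ D ∈ FD 2 r X 1, wt ρ D * Lone D ≤ 12 * (X / Qz 2 * GG X ρ) := by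
    intro r
    by_cases hr : FundRes 2 r
    · obtain ⟨X0, hX0⟩ := class_bd hLM r hr C0 hC0
      exact ⟨X0, fun X hX ρ h1 h2 _ => hX0 X hX ρ h1 h2⟩
    · exact ⟨0, fun X _ ρ _ _ h => absurd h hr⟩
  choose X0 hX0 using h
  refine ⟨(Finset.range (Qz 2)).sup X0, fun X hX ρ h1 h2 r hr => ?_⟩
  exact hX0 r X (le_trans (Finset.le_sup (Finset.mem_range.2 hr.1)) hX) ρ h1 h2 hr

lemma cc3 : cc 3 = 1 / 64 := by unfold cc; norm_num

theorem lav_core (hLM : P2_LM) (hT : P2_TRIV) (hNF : ∀ D : ℕ, IsFund D → 0 ≤ Lone D) :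
    StmtLAV := by
  obtain ⟨X0, hX0⟩ := class_all hLM 1 le_rfl
  refine ⟨12, max X0 3, fun X hX => ?_⟩
  have hX1 : X0 ≤ X := (le_max_left _ _).trans hX
  have hX3 : 3 ≤ X := (le_max_right _ _).trans hX
  obtain ⟨h1, h2, h3⟩ := hT 2 X (PA 3 X) (cc 3) 1 hX3 (by rw [cc3]; norm_num) le_rfl
    (fun p hp => by
      unfold PA PP at hp
      exact (Finset.mem_filter.1 hp).2)
  have hG : (0 : ℝ) ≤ GG X (fun d => if d = 1 then 1 else 0) := by rw [h2]; norm_num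
  have h4 := hX0 X hX1 _ h1 hG
  have hQ : (0 : ℝ) < Qz 2 := by exact_mod_cast AS1h.Qz_pos 2
  have h5 := block hNF X (by omega) (wt (fun d => if d = 1 then 1 else 0))
    (fun D hD => by rw [h3 D hD]; exact zero_le_one) ((Finset.Ioc X (2 * X)).filter IsFund)
    (Finset.Subset.refl _) (fun D hD => by
      rw [Finset.mem_filter, Finset.mem_Ioc] at hD
      exact h3 D (by omega)) (12 * (X / Qz 2 * GG X (fun d => if d = 1 then 1 else 0))) h4
    (by positivity)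
  refine h5.trans (le_of_eq ?_)
  rw [h2]
  field_simp

theorem lap_core (hLM : P2_LM) (hBH : P2_BH) (hNF : ∀ D : ℕ, IsFund D → 0 ≤ Lone D) :
    StmtLAP := by
  have hc0 : (0 : ℝ) < cc 3 := by rw [cc3]; norm_num
  have hc1 : cc 3 ≤ 1 / 2 := by rw [cc3]; norm_num
  obtain ⟨C0, hC0, hB⟩ := hBH (cc 3) hc0 (by linarith)
  obtain ⟨XB, hXB⟩ := hB 2 le_rfl 3 (by norm_num)
  obtain ⟨X0, hX0⟩ := class_all hLM C0 hC0
  refine ⟨12 * C0, max (max X0 XB) 17, fun X hX => ?_⟩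
  have hX1 : X0 ≤ X := (le_max_left _ _).trans ((le_max_left _ _).trans hX)
  have hX2 : XB ≤ X := (le_max_right _ _).trans ((le_max_left _ _).trans hX)
  have hX3 : 17 ≤ X := (le_max_right _ _).trans hX
  obtain ⟨ρ, hρ, hρ1, hGG⟩ := hXB X hX2
  have hX17 : (17 : ℝ) ≤ X := by exact_mod_cast hX3
  have hlog : 0 < Real.log X := Real.log_pos (by linarith)
  have hGpos : 0 ≤ GG X ρ := le_trans (by positivity) hρ.low
  have hprod : ∏ q ∈ (Finset.Icc 3 2).filter Nat.Prime, (1 - (1 : ℝ) / q) = 1 := by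
    have : Finset.Icc 3 2 = (∅ : Finset ℕ) := Finset.Icc_eq_empty (by norm_num)
    rw [this, Finset.filter_empty, Finset.prod_empty]
  rw [hprod, mul_one] at hGG
  have hQ : (0 : ℝ) < Qz 2 := by exact_mod_cast AS1h.Qz_pos 2
  have h5 := block hNF X (by omega) (wt ρ)
    (fun D hD => APh.wt_nonneg (by omega) (by linarith) hρ D hD)
    ((Finset.Ioc X (2 * X)).filter (fun D => IsFund D ∧ ∃ p : ℕ, p.Prime ∧
      (D = p ∨ D = 4 * p))) (fun D hD => by
        rw [Finset.mem_filter] at hD ⊢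
        exact ⟨hD.1, hD.2.1⟩) (fun D hD => by
      rw [Finset.mem_filter, Finset.mem_Ioc] at hD
      obtain ⟨h6, h7, p, hp, hDp⟩ := hD
      exact APh.wt_one hX3 hc1 hρ hρ1 h6.1 hp hDp)
    (12 * (X / Qz 2 * GG X ρ)) (hX0 X hX1 ρ hρ hGpos) (by positivity)
  refine h5.trans ?_
  calc (Qz 2 : ℝ) * (12 * (X / Qz 2 * GG X ρ)) = 12 * X * GG X ρ := by field_simp
    _ ≤ 12 * X * (C0 / Real.log X) := mul_le_mul_of_nonneg_left hGG (by positivity)
    _ = 12 * C0 * X / Real.log X := by ring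

end Pool.Agent.Q79.PL
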